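import Mathlib
import Pool.Agent.R29.FRTree

/-!
# Proper fractional revival in a tree occurs only between cospectral vertices (MP_33c96f_co, Q1)
-/

set_option autoImplicit false

open Matrix Finset

namespace Pool.Agent.Results.MP_33c96f_co.TreeRevival

open Pool.Agent.R29.FR

/-- Proper fractional revival between the vertices `a` and `b` of the graph `X`: `a ≠ b` and there
are a time `τ > 0` and non-zero complex numbers `α, β` with
`exp (i τ A) e_a = α e_a + β e_b`. -/
def ProperFractionalRevival {V : Type} [Fintype V] [DecidableEq V] (X : SimpleGraph V)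
    [DecidableRel X.Adj] (a b : V) : Prop :=
  a ≠ b ∧ ∃ (τ : ℝ) (α β : ℂ), 0 < τ ∧ α ≠ 0 ∧ β ≠ 0 ∧
    NormedSpace.exp (((τ : ℂ) * Complex.I) • X.adjMatrix ℂ) *ᵥ Pi.single a 1
      = α • Pi.single a (1 : ℂ) + β • Pi.single b (1 : ℂ)

open Classical in
/-- The characteristic polynomial of (the adjacency matrix of) the graph `X ∖ a`. -/
noncomputable def deletedCharpoly {V : Type} [Fintype V] (X : SimpleGraph V) (a : V) :
    Polynomial ℝ :=
  ((X.induce {a}ᶜ).adjMatrix ℝ).charpoly

/-- `a` and `b` are cospectral: `X ∖ a` and `X ∖ b` have the same characteristic polynomial. -/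
def Cospectral {V : Type} [Fintype V] (X : SimpleGraph V) (a b : V) : Prop :=
  deletedCharpoly X a = deletedCharpoly X b

theorem reindex_charpoly {m n : Type} [Fintype m] [DecidableEq m] [Fintype n] [DecidableEq n]
    (e : m ≃ n) (M : Matrix m m ℝ) (N : Matrix n n ℝ) (h : ∀ i j, N (e i) (e j) = M i j) :
    N.charpoly = M.charpoly := by
  rw [← Matrix.charpoly_reindex e]
  congr 1
  ext i j
  rw [Matrix.reindex_apply, Matrix.submatrix_apply, ← h, Equiv.apply_symm_apply,
    Equiv.apply_symm_apply]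

theorem induce_charpoly {V : Type} [Fintype V] [DecidableEq V] (X : SimpleGraph V)
    [DecidableRel X.Adj] (a : V) [Fintype ({a}ᶜ : Set V)] [DecidableEq ({a}ᶜ : Set V)]
    [DecidableRel (X.induce {a}ᶜ).Adj] : ((X.induce {a}ᶜ).adjMatrix ℝ).charpoly =
      ((X.adjMatrix ℝ).submatrix (fun i : {x // x ≠ a} => i.1) (fun i => i.1)).charpoly := by
  let e : {x // x ≠ a} ≃ (({a}ᶜ : Set V) : Type) :=
    ⟨fun x => ⟨x.1, x.2⟩, fun x => ⟨x.1, x.2⟩, fun _ => rfl, fun _ => rfl⟩
  refine reindex_charpoly e _ _ ?_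
  intro i j
  rw [Matrix.submatrix_apply, SimpleGraph.adjMatrix_apply, SimpleGraph.adjMatrix_apply]
  by_cases hij : X.Adj i.1 j.1
  · rw [if_pos hij, if_pos]
    exact hij
  · rw [if_neg hij, if_neg]
    exact hij

theorem deletedCharpoly_eq {V : Type} [Fintype V] [DecidableEq V] (X : SimpleGraph V)
    [DecidableRel X.Adj] (a : V) : deletedCharpoly X a =
      ((X.adjMatrix ℝ).submatrix (fun i : {x // x ≠ a} => i.1) (fun i => i.1)).charpoly := by
  unfold deletedCharpoly
  rw [induce_charpoly]

theorem adj_herm {V : Type} [Fintype V] [DecidableEq V] (X : SimpleGraph V)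
    [DecidableRel X.Adj] : (X.adjMatrix ℂ).IsHermitian := by
  ext u v
  rw [Matrix.conjTranspose_apply, SimpleGraph.adjMatrix_apply, SimpleGraph.adjMatrix_apply]
  by_cases h : X.Adj u v
  · rw [if_pos h, if_pos h.symm]; simp
  · rw [if_neg h, if_neg (fun h' => h h'.symm)]; simp

theorem pow_map {V : Type} [Fintype V] [DecidableEq V] (X : SimpleGraph V)
    [DecidableRel X.Adj] {R S : Type} [CommRing R] [CommRing S] (f : R →+* S) (k : ℕ) (u v : V) :
    ((X.adjMatrix S) ^ k) u v = f (((X.adjMatrix R) ^ k) u v) := by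
  rw [SimpleGraph.adjMatrix_pow_apply_eq_card_walk, SimpleGraph.adjMatrix_pow_apply_eq_card_walk,
    map_natCast]

theorem main {V : Type} [Fintype V] [DecidableEq V] (T : SimpleGraph V) [DecidableRel T.Adj]
    (hT : T.IsTree) (a b : V) (hFR : ProperFractionalRevival T a b) : Cospectral T a b := by
  obtain ⟨hab, τ, α, β, hτ, hα, hβ, h⟩ := hFR
  obtain ⟨γ, hk, hy⟩ := fr_relations (T.adjMatrix ℂ) (T.transpose_adjMatrix) (adj_herm T) τ a b hab
    α β hβ h
  -- it suffices that α = γ
  suffices hαγ : α = γ by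
    unfold Cospectral
    rw [deletedCharpoly_eq, deletedCharpoly_eq]
    apply charpoly_del
    intro k
    have h1 := hk k
    rw [hαγ, sub_self, zero_mul, mul_eq_zero, or_iff_right hβ, sub_eq_zero] at h1
    rw [pow_map T (Complex.ofRealHom : ℝ →+* ℂ), pow_map T (Complex.ofRealHom : ℝ →+* ℂ)] at h1
    exact Complex.ofReal_injective h1
  set d := T.dist a b with hd
  have hwalk : ((T.adjMatrix ℂ) ^ d) a b = 1 := walk_one T hT ℂ a b
  have hkd := hk d
  rw [hwalk, mul_one] at hkd
  rcases Nat.even_or_odd d with hev | hodd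
  · -- the even case
    have hb : sg T ℂ a b = 1 := by
      unfold sg; rw [← hd]; exact hev.neg_one_pow
    -- kappa
    set κ : ℤ := ((T.adjMatrix ℤ) ^ d) a a - ((T.adjMatrix ℤ) ^ d) b b with hκ
    have hκc : α - γ = β * (κ : ℂ) := by
      rw [← hkd, pow_map T (Int.castRingHom ℂ), pow_map T (Int.castRingHom ℂ)]
      rw [hκ]; push_cast; rfl
    obtain ⟨lam, q, hq, hAq, -⟩ := Pool.Agent.R2.Perron.exists_perron T hT.connected
    have hlam : 0 < lam := by
      have h1 := congrFun hAq a
      rw [SimpleGraph.adjMatrix_mulVec_apply, Pi.smul_apply, smul_eq_mul] at h1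
      obtain ⟨w, hw⟩ : ∃ w, T.Adj a w := by
        have : Nontrivial V := ⟨a, b, hab⟩
        exact hT.connected.preconnected.exists_adj_of_nontrivial a
      have h2 : 0 < ∑ u ∈ T.neighborFinset a, q u :=
        Finset.sum_pos (fun u _ => hq u) ⟨w, by rw [SimpleGraph.mem_neighborFinset]; exact hw⟩
      rw [h1] at h2
      exact (pos_iff_pos_of_mul_pos h2).2 (hq a)
    obtain ⟨c, hc⟩ := ratio_rational T hT q lam hq hlam hAq a b hb τ hτ α β
      (fun y θ hyθ => (hy y θ hyθ).1)
    -- the quadratic relation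
    have hqa := (hq a).ne'
    have hquad : q a ^ 2 - q b ^ 2 = κ * (q a * q b) := by
      have h1 : (T.adjMatrix ℂ) *ᵥ (fun v => (Complex.ofRealHom (q v)))
          = (Complex.ofRealHom lam) • (fun v => (Complex.ofRealHom (q v))) :=
        map_eig T Complex.ofRealHom q lam hAq
      obtain ⟨h2, h3⟩ := hy _ _ h1
      simp only [Complex.ofRealHom_eq_coe] at h2 h3
      have h4 : β * (((q a : ℂ) ^ 2 - (q b : ℂ) ^ 2) - κ * ((q a : ℂ) * q b)) = 0 := by
        linear_combination (q a : ℂ) * h3 - (q b : ℂ) * h2 + (q a : ℂ) * q b * hκc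
      rw [mul_eq_zero, or_iff_right hβ, sub_eq_zero] at h4
      exact_mod_cast h4
    have hcpos : (0 : ℝ) < c := by rw [← hc]; exact div_pos (hq b) (hq a)
    have hqb : q b = c * q a := by rw [← hc]; field_simp
    have hcq : (c : ℝ) ^ 2 + κ * c - 1 = 0 := by
      rw [hqb] at hquad
      have h5 : q a ^ 2 * ((c : ℝ) ^ 2 + κ * c - 1) = 0 := by linear_combination -hquad
      rcases mul_eq_zero.1 h5 with h6 | h6
      · exact absurd (pow_eq_zero_iff (two_ne_zero)|>.1 h6) hqa
      · exact h6
    have hcQ : c ^ 2 + κ * c - 1 = 0 := by exact_mod_cast hcq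
    have hcposQ : 0 < c := by exact_mod_cast hcpos
    have hint : IsIntegral ℤ c := by
      refine ⟨Polynomial.X ^ 2 + (Polynomial.C κ * Polynomial.X + Polynomial.C (-1)), ?_, ?_⟩
      · apply Polynomial.monic_X_pow_add
        refine lt_of_le_of_lt (Polynomial.degree_linear_le) ?_
        norm_num
      · simp only [Polynomial.eval₂_add, Polynomial.eval₂_pow, Polynomial.eval₂_X,
          Polynomial.eval₂_mul, Polynomial.eval₂_C]
        rw [← hcQ]
        simp
        ring
    obtain ⟨m, hm⟩ := IsIntegrallyClosed.isIntegral_iff.1 hint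
    have hm' : (m : ℚ) = c := by rw [← hm]; rfl
    rw [← hm'] at hcQ hcposQ
    have hmZ : m ^ 2 + κ * m - 1 = 0 := by exact_mod_cast hcQ
    have hmpos : 0 < m := by exact_mod_cast hcposQ
    have hm1 : m * (m + κ) = 1 := by linear_combination hmZ
    have hm2 : m = 1 := by
      rcases Int.mul_eq_one_iff_eq_one_or_neg_one.1 hm1 with h6 | h6
      · exact h6.1
      · exact absurd h6.1 (by omega)
    have hκ0 : κ = 0 := by rw [hm2] at hm1; linarith
    rw [hκ0] at hκc
    simp only [Int.cast_zero, mul_zero] at hκc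
    exact sub_eq_zero.1 hκc
  · -- the odd case
    have hdiag : ∀ u : V, ((T.adjMatrix ℂ) ^ d) u u = 0 := by
      intro u
      have h1 := odd_diag T hT ℂ u d u u
      rw [sg_self, hodd.neg_one_pow] at h1
      have h2 : (2 : ℂ) * ((T.adjMatrix ℂ) ^ d) u u = 0 := by linear_combination h1
      simpa using h2
    rw [hdiag, hdiag, sub_zero, mul_zero] at hkd
    exact (sub_eq_zero.1 hkd.symm)

/-- In every (finite) tree, any two vertices between which proper fractional revival occurs are
cospectral. -/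
theorem result : ∀ (V : Type) [Fintype V] [DecidableEq V] (T : SimpleGraph V) [DecidableRel T.Adj],
    T.IsTree → ∀ a b : V, ProperFractionalRevival T a b → Cospectral T a b := by
  intro V _ _ T _ hT a b h
  exact main T hT a b h

end Pool.Agent.Results.MP_33c96f_co.TreeRevival
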